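import Pool.Agent.H57.UGB.Api
import Pool.Agent.H57.UGB.Free
import Pool.Agent.H99.UGB.Ser
import Pool.Agent.H29.UGB.Elim

/-!
# KER: the kernel of the evaluation at the generic point, for polynomials without the eliminated variables
-/

set_option autoImplicit false

open MvPolynomial

namespace Pool.Agent.H36.UGB

open Pool.Agent.H47.KB Pool.Agent.H47.UG Pool.Agent.H57.UGB

/-- Clearing denominators. -/
theorem clear_den {A K σ : Type} [CommRing A] [IsDomain A] [Field K] [Algebra A K] [IsFractionRing A K]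
    (Q : MvPolynomial σ K) : ∃ c : A, c ≠ 0 ∧ ∃ Q' : MvPolynomial σ A,
      map (algebraMap A K) Q' = C (algebraMap A K c) * Q := by
  induction Q using MvPolynomial.induction_on with
  | C q =>
    obtain ⟨a, b, hb, rfl⟩ := IsFractionRing.div_surjective (A := A) q
    have hb0 : b ≠ 0 := nonZeroDivisors.ne_zero hb
    have hb1 : algebraMap A K b ≠ 0 := by
      simpa using hb0
    refine ⟨b, hb0, C a, ?_⟩
    rw [map_C, ← C_mul, mul_div_cancel₀ _ hb1]
  | add P Q hP hQ =>
    obtain ⟨c, hc, P', h1⟩ := hP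
    obtain ⟨c', hc', Q', h2⟩ := hQ
    refine ⟨c * c', mul_ne_zero hc hc', C c' * P' + C c * Q', ?_⟩
    rw [map_add, map_mul, map_mul, map_C, map_C, h1, h2, map_mul (algebraMap A K), C_mul]
    ring
  | mul_X P i hP =>
    obtain ⟨c, hc, P', h1⟩ := hP
    refine ⟨c, hc, P' * X i, ?_⟩
    rw [map_mul, h1, map_X, mul_assoc]

/-- The homogenisation of degree `D` with respect to `X 0`. -/
noncomputable def hmg {A : Type} [CommRing A] {m : ℕ} (D : ℕ) (G : MvPolynomial (Fin (m + 1)) A) :
    MvPolynomial (Fin (m + 1)) A :=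
  ∑ i ∈ Finset.range (D + 1), X 0 ^ (D - i) * homogeneousComponent i G

theorem hmg_hom {A : Type} [CommRing A] {m : ℕ} (D : ℕ) (G : MvPolynomial (Fin (m + 1)) A) :
    (hmg D G).IsHomogeneous D := by
  unfold hmg
  refine IsHomogeneous.sum _ _ _ fun i hi => ?_
  have h1 := ((isHomogeneous_X A (0 : Fin (m + 1))).pow (D - i)).mul (homogeneousComponent_isHomogeneous i G)
  have h2 : 1 * (D - i) + i = D := by
    have := Finset.mem_range.1 hi
    omega
  rwa [h2] at h1

theorem hmg_eval {A S : Type} [CommRing A] [CommRing S] {m : ℕ} (f : A →+* S) (p : Fin (m + 1) → S)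
    (hp : p 0 = 1) (G : MvPolynomial (Fin (m + 1)) A) :
    eval₂ f p (hmg G.totalDegree G) = eval₂ f p G := by
  conv_rhs => rw [← sum_homogeneousComponent G]
  unfold hmg
  rw [eval₂_sum, eval₂_sum]
  refine Finset.sum_congr rfl fun i _ => ?_
  rw [eval₂_mul, eval₂_pow, eval₂_X, hp, one_pow, one_mul]

section

variable {n d : ℕ} (T : FF d (genK n d))

/-- A polynomial in the coefficients and the coordinates which vanishes at the generic point vanishes at all
points with `c ≠ 0` of the hypersurfaces. -/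
theorem kerA (G : MvPolynomial (Fin (n + 2)) (Cof n))
    (h : eval₂ ((algebraMap (KK n) T.L).comp (algebraMap (Cof n) (KK n))) T.x G = 0) : ∃ c : Cof n, c ≠ 0 ∧
    ∀ (R : Type) [CommRing R] [Algebra ℂ R] (a : (Fin (n + 2) →₀ ℕ) → R) (p : Fin (n + 2) → R), p 0 = 1 →
      eval p (gen n d a) = 0 → IsUnit (aeval a c) → eval₂ ((aeval a : Cof n →ₐ[ℂ] R) : Cof n →+* R) p G = 0 := by
  set D := G.totalDegree with hD
  have h1 : aeval T.x (map (algebraMap (Cof n) (KK n)) (hmg D G)) = 0 := by
    rw [aeval_def, eval₂_map, hmg_eval _ _ T.x_zero, h]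
  have h2 := (T.ker D _ ((hmg_hom D G).map _)).1 h1
  obtain ⟨Q, hQ⟩ := h2
  obtain ⟨c, hc, Q', hQ'⟩ := clear_den (A := Cof n) Q
  have hg : map (algebraMap (Cof n) (KK n)) (gen n d fun α => (X α : Cof n)) = genK n d := map_gen n d _ _
  have h3 : C c * hmg D G = gen n d (fun α => (X α : Cof n)) * Q' := by
    refine map_injective (algebraMap (Cof n) (KK n)) (IsFractionRing.injective (Cof n) (KK n)) ?_
    rw [map_mul, map_mul, map_C, hQ, hQ', hg]
    ring
  refine ⟨c, hc, fun R _ _ a p hp hF hu => ?_⟩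
  have h4 := congrArg (eval₂ ((aeval a : Cof n →ₐ[ℂ] R) : Cof n →+* R) p) h3
  have h5 : (fun α => ((aeval a : Cof n →ₐ[ℂ] R) : Cof n →+* R) (X α)) = a := by
    funext α
    simp
  have h6 : eval₂ ((aeval a : Cof n →ₐ[ℂ] R) : Cof n →+* R) p (gen n d fun α => (X α : Cof n)) = 0 := by
    rw [← eval_map, map_gen, h5, hF]
  rw [eval₂_mul, eval₂_mul, eval₂_C, hD, hmg_eval _ _ hp, h6, zero_mul] at h4
  exact (hu.mul_right_eq_zero).1 h4

/-- Coefficients of a polynomial after a change of the coefficients and a rescaling of the variables. -/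
theorem coeff_rescale {A S σ : Type} [CommRing A] [CommRing S] (f : A →+* S) (u : σ → S)
    (Z : MvPolynomial σ A) (m : σ →₀ ℕ) :
    coeff m (eval₂ ((C : S →+* MvPolynomial σ S).comp f) (fun q => C (u q) * X q) Z) =
      f (coeff m Z) * m.prod fun q e => u q ^ e := by
  classical
  induction Z using MvPolynomial.induction_on' with
  | monomial b r =>
    have h1 : eval₂ ((C : S →+* MvPolynomial σ S).comp f) (fun q => C (u q) * X q) (monomial b r) =
        monomial b (f r * b.prod fun q e => u q ^ e) := by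
      rw [eval₂_monomial, RingHom.comp_apply, ← C_mul_monomial]
      congr 1
      rw [Finsupp.prod, monomial_eq, Finsupp.prod, Finsupp.prod, map_prod, ← Finset.prod_mul_distrib]
      refine Finset.prod_congr rfl fun q _ => ?_
      rw [mul_pow, C_pow]
    rw [h1, coeff_monomial, coeff_monomial]
    split_ifs with hbm
    · rw [hbm]
    · rw [map_zero, zero_mul]
  | add p q hp hq =>
    rw [eval₂_add, coeff_add, hp, hq, coeff_add, map_add, add_mul]

variable (k : ℕ)

/-- Functions of the point (coefficients and coordinates). -/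
abbrev PA (n : ℕ) := MvPolynomial (Fin (n + 2)) (Cof n)

/-- Polynomials in the jet coordinates with coefficients in the functions of the point. -/
abbrev PB (n k : ℕ) := MvPolynomial (Fin k × Fin n) (PA n)

/-- The images of the jet variables. -/
noncomputable def vv (n k : ℕ) (v : Fin (n + 2) × Fin (k + 1)) : PB n k :=
  if h0 : (v.2 : ℕ) = 0 then C (X v.1)
  else if h : 0 < (v.1 : ℕ) ∧ (v.1 : ℕ) < n + 1 then
    X (⟨(v.2 : ℕ) - 1, by omega⟩, ⟨(v.1 : ℕ) - 1, by omega⟩)
  else 0

/-- Sorting the variables. -/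
noncomputable def ψ (n k : ℕ) : JR n k →ₐ[ℂ] PB n k :=
  aeval (Sum.elim (fun α => C (C (X α))) (vv n k))

theorem ψ_inl (α : Fin (n + 2) →₀ ℕ) : ψ n k (X (Sum.inl α)) = C (C (X α)) := by
  unfold ψ
  rw [aeval_X]
  rfl

theorem ψ_inr (v : Fin (n + 2) × Fin (k + 1)) : ψ n k (X (Sum.inr v)) = vv n k v := by
  unfold ψ
  rw [aeval_X]
  rfl

theorem ψ_C (z : ℂ) : ψ n k (C z) = C (C (C z)) := by
  rw [← MvPolynomial.algebraMap_eq, AlgHom.commutes]
  rfl

/-- Two evaluations which agree on the constants and on the variables of `E` agree on `E`. -/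
theorem eval_sorted {S : Type} [CommRing S] (E : JR n k) (hE : Free E) (F : JR n k →+* S) (f : PA n →+* S)
    (g : Fin k × Fin n → S) (hC : ∀ z : ℂ, F (C z) = f (C (C z)))
    (hl : ∀ α, F (X (Sum.inl α)) = f (C (X α)))
    (h0 : ∀ j : Fin (n + 2), F (X (Sum.inr (j, 0))) = f (X j))
    (hs : ∀ (l : Fin n) (s : ℕ) (hs : s < k), F (X (Sum.inr (l.succ.castSucc, ⟨s + 1, by omega⟩))) =
      g (⟨s, hs⟩, l)) :
    F E = eval₂ f g (ψ n k E) := by
  refine hom_congr_vars (f₁ := F) (f₂ := (eval₂Hom f g).comp ((ψ n k : JR n k →ₐ[ℂ] PB n k) : JR n k →+* PB n k))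
    (p₁ := E) (p₂ := E) ?_ ?_ rfl
  · refine RingHom.ext fun z => ?_
    change F (C z) = eval₂ f g (ψ n k (C z))
    rw [ψ_C, eval₂_C, hC]
  · intro v hv _
    change F (X v) = eval₂ f g (ψ n k (X v))
    rcases v with α | v
    · rw [ψ_inl, eval₂_C, hl]
    · rw [ψ_inr]
      obtain ⟨h1, h2⟩ := hE v hv
      unfold vv
      split_ifs with h3 h4
      · rw [eval₂_C]
        have h5 : v = (v.1, 0) := by
          ext
          · rfl
          · exact h3
        rw [h5]
        exact h0 v.1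
      · rw [eval₂_X, ← hs ⟨(v.1 : ℕ) - 1, by omega⟩ ((v.2 : ℕ) - 1) (by omega)]
        congr 3
        ext
        · simp
          omega
        · simp
          omega
      · exfalso
        have h5 : v.1 = Fin.last (n + 1) := by
          ext
          have h6 : (v.1 : ℕ) ≠ 0 := fun hcon => h1 (Fin.ext hcon)
          have := v.1.2
          rw [Fin.val_last]
          omega
        apply h3
        rw [h2 h5]
        rfl

end

end Pool.Agent.H36.UGB

namespace Pool.Agent.H57.UGB

open Pool.Agent.H47.KB Pool.Agent.H47.UG Pool.Agent.H36.UGB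

section ff

variable {n d : ℕ} (T : FF d (genK n d)) (k : ℕ)

theorem ker_free (hk : 1 ≤ k) (hd : 1 ≤ d) (E : JR n k) (hE : Free E) (h : zk T k E = 0) : ∃ c : Cof n, c ≠ 0 ∧
    ∀ (R : Type) [CommRing R] [Algebra ℂ R] (a : (Fin (n + 2) →₀ ℕ) → R) (y : Fin (n + 2) → PowerSeries R),
      OnT d k a y → y 0 = 1 → IsUnit (aeval a c) → pt a y E = 0 := by
  classical
  set φ : PA n →+* T.L := eval₂Hom ((algebraMap (KK n) T.L).comp (algebraMap (Cof n) (KK n))) T.x with hφ
  set u : Fin k × Fin n → T.L := fun q => algebraMap (KK n) T.L ((((q.1 : ℕ) + 1).factorial : KK n)⁻¹) with hu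
  have hu0 : ∀ q, u q ≠ 0 := by
    intro q
    rw [hu]
    simp only [ne_eq, map_inv₀, inv_eq_zero, map_natCast]
    have h1 : (algebraMap (KK n) T.L) (((q.1 : ℕ) + 1).factorial : KK n) ≠ 0 := by
      rw [Ne, FaithfulSMul.algebraMap_eq_zero_iff]
      exact Nat.cast_ne_zero.2 (Nat.factorial_ne_zero _)
    rwa [map_natCast] at h1
  have h1 : zk T k E = eval₂ ((C : T.L →+* Bk T k).comp φ) (fun q => C (u q) * X q) (ψ n k E) := by
    refine eval_sorted (n := n) k E hE ((zk T k : JR n k →ₐ[ℂ] Bk T k) : JR n k →+* Bk T k) _ _ ?_ ?_ ?_ ?_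
    · intro z
      change zk T k (C z) = C (φ (C (C z)))
      rw [← MvPolynomial.algebraMap_eq, AlgHom.commutes, hφ, coe_eval₂Hom, eval₂_C]
      change C (algebraMap (KK n) T.L (algebraMap ℂ (KK n) z)) = _
      rw [RingHom.comp_apply, IsScalarTower.algebraMap_apply ℂ (Cof n) (KK n), MvPolynomial.algebraMap_eq]
    · intro α
      change zk T k (X (Sum.inl α)) = C (φ (C (X α)))
      unfold zk
      rw [pt_inl, hφ, coe_eval₂Hom, eval₂_C]
      rfl
    · intro j
      change zk T k (X (Sum.inr (j, 0))) = C (φ (X j))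
      unfold zk
      rw [pt_inr, hφ, coe_eval₂Hom, eval₂_X]
      change PowerSeries.coeff 0 (ser T k (T.x j)) = _
      rw [PowerSeries.coeff_zero_eq_constantCoeff_apply, coeff_ser_zero]
    · intro l s hs
      change zk T k (X (Sum.inr (l.succ.castSucc, ⟨s + 1, _⟩))) = _
      unfold zk
      rw [pt_inr]
      change PowerSeries.coeff (s + 1) (ser T k (T.x l.succ.castSucc)) = _
      rw [coeff_ser_x T k l s hs]
  have h2 : ∀ m, eval₂ ((algebraMap (KK n) T.L).comp (algebraMap (Cof n) (KK n))) T.x (coeff m (ψ n k E)) = 0 := by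
    intro m
    have h3 := coeff_rescale φ u (ψ n k E) m
    rw [← h1, h, coeff_zero] at h3
    have h4 : (m.prod fun q e => u q ^ e) ≠ 0 :=
      Finset.prod_ne_zero_iff.2 fun q _ => pow_ne_zero _ (hu0 q)
    exact (mul_eq_zero.1 h3.symm).resolve_right h4
  choose c hc hcc using fun m => kerA T (coeff m (ψ n k E)) (h2 m)
  refine ⟨∏ m ∈ (ψ n k E).support, c m, Finset.prod_ne_zero_iff.2 fun m _ => hc m, fun R _ _ a y hy hy0 hun => ?_⟩
  set f' : PA n →+* R := eval₂Hom ((aeval a : Cof n →ₐ[ℂ] R) : Cof n →+* R)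
    (fun j => PowerSeries.constantCoeff (y j)) with hf'
  have h3 : pt a y E = eval₂ f' (fun q => PowerSeries.coeff ((q.1 : ℕ) + 1) (y q.2.succ.castSucc)) (ψ n k E) := by
    refine eval_sorted (n := n) k E hE ((pt a y : JR n k →ₐ[ℂ] R) : JR n k →+* R) _ _ ?_ ?_ ?_ ?_
    · intro z
      change pt a y (C z) = f' (C (C z))
      rw [← MvPolynomial.algebraMap_eq, AlgHom.commutes, hf', coe_eval₂Hom, eval₂_C]
      change _ = aeval a (C z)
      rw [aeval_C]
    · intro α
      change pt a y (X (Sum.inl α)) = f' (C (X α))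
      rw [pt_inl, hf', coe_eval₂Hom, eval₂_C]
      change _ = aeval a (X α)
      rw [aeval_X]
    · intro j
      change pt a y (X (Sum.inr (j, 0))) = f' (X j)
      rw [pt_inr, hf', coe_eval₂Hom, eval₂_X]
      exact PowerSeries.coeff_zero_eq_constantCoeff_apply _
    · intro l s hs
      change pt a y (X (Sum.inr (l.succ.castSucc, ⟨s + 1, _⟩))) = _
      rw [pt_inr]
  have hF : eval (fun j => PowerSeries.constantCoeff (y j)) (gen n d a) = 0 := by
    have h5 := hy 0 (Nat.zero_le k)
    rw [PowerSeries.coeff_zero_eq_constantCoeff_apply, aeval_def] at h5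
    have h6 := eval₂_comp_left (PowerSeries.constantCoeff (R := R)) (algebraMap R (PowerSeries R)) y (gen n d a)
    have h7 : (PowerSeries.constantCoeff (R := R)).comp (algebraMap R (PowerSeries R)) = RingHom.id R := by
      refine RingHom.ext fun r => ?_
      simp
    rw [h5, h7] at h6
    exact h6.symm
  rw [h3, eval₂_eq']
  refine Finset.sum_eq_zero fun m hm => ?_
  have h7 : f' (coeff m (ψ n k E)) = 0 := by
    refine hcc m R a (fun j => PowerSeries.constantCoeff (y j)) ?_ hF ?_
    · rw [hy0, map_one]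
    · rw [map_prod] at hun
      exact isUnit_of_dvd_unit (Finset.dvd_prod_of_mem (fun m => aeval a (c m)) hm) hun
  rw [h7, zero_mul]

theorem link (hk : 1 ≤ k) (hd : 1 ≤ d) (E : JR n k) (h : zk T k E = 0) : ∃ c : Cof n, c ≠ 0 ∧
    ∀ (R : Type) [CommRing R] [Algebra ℂ R] (a : (Fin (n + 2) →₀ ℕ) → R) (y : Fin (n + 2) → PowerSeries R),
      OnT d k a y → y 0 = 1 → IsUnit (aeval a c) → IsUnit (FL d a y) → pt a y E = 0 := by
  obtain ⟨N, E', hE', h1⟩ := elim n d k E
  have h2 : zk T k E' = 0 := by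
    have h3 := h1 (Bk T k) (aK T k) (fun j => ser T k (T.x j)) (onT_zk T k) (by rw [T.x_zero, ser_one])
    have h4 : pt (aK T k) (fun j => ser T k (T.x j)) E = 0 := h
    rw [h4, mul_zero] at h3
    exact h3.symm
  obtain ⟨c, hc, h5⟩ := ker_free T k hk hd E' hE' h2
  refine ⟨c, hc, fun R _ _ a y hy hy0 hun hFL => ?_⟩
  have h6 := h1 R a y hy hy0
  rw [h5 R a y hy hy0 hun] at h6
  exact ((hFL.pow N).mul_right_eq_zero).1 h6

end ff

end Pool.Agent.H57.UGB
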